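import Pool.Agent.Lib.MP_bc213e_ag.OW.A.Loc

/-! The charts of the embedding by the products `F b * x j`. -/

namespace Pool.Agent.Lib.MP_bc213e_ag.OW

open Pool.Agent.Lib.MP_bc213e_ag.Hyp Pool.Agent.Lib.MP_bc213e_ag.KBB WithZero Filter

variable {K ι B : Type} [Field K] [Algebra ℂ K] {x : ι → Kˣ} {F : B → Kˣ} {k : ℕ}

/-- The new coordinates. -/
def reX (x : ι → Kˣ) (F : B → Kˣ) (u : Kˣ) : B × ι → Kˣ := fun a => F a.1 * x a.2 / u

theorem reX_div (u : Kˣ) (a a' : B × ι) : ((reX x F u a' : Kˣ) : K) / reX x F u a =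
    (F a'.1 : K) / (x a.2 : K) ^ k * ((x a'.2 : K) / x a.2) / ((F a.1 : K) / (x a.2 : K) ^ k) := by
  simp only [reX, Units.val_div_eq_div_val, Units.val_mul]
  field_simp

/-- Sketch: `x l / x j = reX (b, l) / reX (b, j)`. -/
theorem reX_le (u : Kˣ) (a : B × ι) : chart x a.2 ≤ chart (reX x F u) a := by
  refine Algebra.adjoin_le ?_
  rintro _ ⟨l, rfl⟩
  refine Algebra.subset_adjoin ⟨(a.1, l), ?_⟩
  simp only [reX, Units.val_div_eq_div_val, Units.val_mul]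
  field_simp

/-- Sketch: divide `∑ b, r b * (F b / x j ^ k) = 1` by `F a.1 / x j ^ k`;
`F b / F a.1 = reX (b, j) / reX (a.1, j)`. -/
theorem reX_inv [Fintype B]
    (h1 : ∀ l, ∃ r : B → K, (∀ b, r b ∈ chart x l) ∧ ∑ b, r b * ((F b : K) / (x l : K) ^ k) = 1)
    (u : Kˣ) (a : B × ι) : ((F a.1 : K) / (x a.2 : K) ^ k)⁻¹ ∈ chart (reX x F u) a := by
  obtain ⟨r, hr, h⟩ := h1 a.2
  rw [← one_div, ← h, Finset.sum_div]
  refine sum_mem fun b _ => ?_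
  rw [mul_div_assoc]
  refine mul_mem (reX_le u a (hr b)) (Algebra.subset_adjoin ⟨(b, a.2), ?_⟩)
  exact (reX_div (k := k) u a (b, a.2)).trans (by rw [div_self (x a.2).ne_zero, mul_one])

/-- Sketch: `Algebra.adjoin_induction`, `reX_div`. -/
theorem reX_den (h0 : ∀ b l, (F b : K) / (x l : K) ^ k ∈ chart x l) (u : Kˣ) (a : B × ι) {z : K}
    (hz : z ∈ chart (reX x F u) a) :
    ∃ e : ℕ, z * ((F a.1 : K) / (x a.2 : K) ^ k) ^ e ∈ chart x a.2 := by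
  induction hz using Algebra.adjoin_induction with
  | mem z hz =>
    obtain ⟨b, rfl⟩ := hz
    refine ⟨1, ?_⟩
    dsimp only
    rw [reX_div (k := k), pow_one, div_mul_cancel₀ _ (by simp)]
    exact mul_mem (h0 _ _) (Algebra.subset_adjoin ⟨b.2, rfl⟩)
  | algebraMap c => exact ⟨0, by simp⟩
  | add y z _ _ hy hz =>
    obtain ⟨e, he⟩ := hy
    obtain ⟨e', he'⟩ := hz
    refine ⟨e + e', ?_⟩
    rw [add_mul, pow_add, ← mul_assoc, mul_left_comm z]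
    exact add_mem (mul_mem he (pow_mem (h0 _ _) _)) (mul_mem (pow_mem (h0 _ _) _) he')
  | mul y z _ _ hy hz =>
    obtain ⟨e, he⟩ := hy
    obtain ⟨e', he'⟩ := hz
    refine ⟨e + e', ?_⟩
    rw [pow_add, mul_mul_mul_comm]
    exact mul_mem he he'

theorem reX_loc [Fintype B] (h0 : ∀ b l, (F b : K) / (x l : K) ^ k ∈ chart x l)
    (h1 : ∀ l, ∃ r : B → K, (∀ b, r b ∈ chart x l) ∧ ∑ b, r b * ((F b : K) / (x l : K) ^ k) = 1)
    (u : Kˣ) (a : B × ι) : Loc (chart x a.2) (chart (reX x F u) a) := by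
  refine ⟨reX_le u a, fun z hz => ?_⟩
  obtain ⟨e, he⟩ := reX_den h0 u a hz
  refine ⟨_, pow_mem (h0 a.1 a.2) e, by simp, ?_, mul_comm z _ ▸ he⟩
  rw [← inv_pow]
  exact pow_mem (reX_inv h1 u a) e

theorem reX_primeDiv [Fintype B] (h0 : ∀ b l, (F b : K) / (x l : K) ^ k ∈ chart x l)
    (h1 : ∀ l, ∃ r : B → K, (∀ b, r b ∈ chart x l) ∧ ∑ b, r b * ((F b : K) / (x l : K) ^ k) = 1)
    (u : Kˣ) (a : B × ι) (w : ZVal K) : PrimeDiv (chart (reX x F u) a) w ↔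
      PrimeDiv (chart x a.2) w ∧ w ((F a.1 : K) / (x a.2 : K) ^ k) = 1 := by
  refine ⟨fun h => ⟨(reX_loc h0 h1 u a).primeDiv h, le_antisymm
    (h.2.1 _ (reX_le u a (h0 _ _))) ?_⟩, fun h => primeDiv_of_le (reX_le u a) h.1 fun r hr => ?_⟩
  · have := h.2.1 _ (reX_inv h1 u a)
    rwa [map_inv₀, inv_le_one₀ (w.pos_iff.2 (by simp))] at this
  · obtain ⟨e, he⟩ := reX_den h0 u a hr
    have := h.1.2.1 _ he
    rwa [map_mul, map_pow, h.2, one_pow, mul_one] at this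

/-- Sketch: if all `w (F b / x l ^ k) < 1`, then `w 1 < 1`. -/
theorem reX_cover [Fintype B] (h0 : ∀ b l, (F b : K) / (x l : K) ^ k ∈ chart x l)
    (h1 : ∀ l, ∃ r : B → K, (∀ b, r b ∈ chart x l) ∧ ∑ b, r b * ((F b : K) / (x l : K) ^ k) = 1)
    (u : Kˣ) {l : ι} {w : ZVal K} (hw : PrimeDiv (chart x l) w) :
    ∃ b, PrimeDiv (chart (reX x F u) (b, l)) w := by
  by_contra h
  obtain ⟨r, hr, e⟩ := h1 l
  refine lt_irrefl (w 1) (e ▸ w.map_sum_lt (by simp [e]) fun b _ => ?_)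
  rw [e, map_mul, map_one]
  exact mul_lt_one_of_nonneg_of_lt_one_right (hw.2.1 _ (hr b)) zero_le
    ((hw.2.1 _ (h0 b l)).lt_of_ne fun h' => h ⟨b, (reX_primeDiv h0 h1 u (b, l) w).2 ⟨hw, h'⟩⟩)

end Pool.Agent.Lib.MP_bc213e_ag.OW
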