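import Pool.Agent.Lib.MP_bc213e_ag.OW.A.Forms
import Pool.Agent.Lib.MP_bc213e_ag.OW.B.Chart

/-! An embedding on whose charts `L` is trivial. -/

namespace Pool.Agent.Lib.MP_bc213e_ag.OW

open Pool.Agent.Lib.MP_bc213e_ag.Hyp Pool.Agent.Lib.MP_bc213e_ag.KBB WithZero Filter

variable {K : Type} [Field K] [Algebra ℂ K]

/-- Generators of a divisor on normal charts form a cocycle. Sketch: `exists_pow_mem` in the chart
`b` with `s = y a / y b`, `z = γ a / γ b`; `primeDiv_chart`. -/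
theorem cart_of_eqn {κ : Type} [Fintype κ] {y γ : κ → Kˣ}
    (normal : ∀ a, IsFractionRing (chart y a) K ∧ IsIntegrallyClosed (chart y a))
    (h : ∀ a b (w : ZVal K), PrimeDiv (chart y a) w → PrimeDiv (chart y b) w →
      w (γ a : K) = w (γ b : K)) : Cart y γ := by
  intro i j
  have := chart_noeth y j
  have := (normal j).1
  have := (normal j).2
  refine exists_pow_mem (Basic_mem y j i) fun w hw hs => ?_
  rw [map_div₀, h i j w ((primeDiv_chart hw i).2 hs) hw, div_self (Basic_pos w _).ne']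

omit [Algebra ℂ K] in
theorem Emb_id (s F x g u : K) (hF : F ≠ 0) (hx : x ≠ 0) (hg : g ≠ 0) (hu : u ≠ 0) (k a : ℕ) :
    s / (g * (F * x / u) ^ a) = s * u ^ a / x ^ ((k + 1) * a) / (g * (F / x ^ k) ^ a) := by
  rw [pow_mul, div_pow, div_pow, mul_pow, pow_succ, mul_pow]
  field_simp

/-- Sketch: `x' = reX x F u` with `u = F b₀ * x 0` (`B` is not empty since the sum is one),
`g' (b, j) = (f b)⁻¹`, `k = k + 1`. The charts of `x'` are normal (`Loc.frac`, `Loc.normal`,
`chart_noeth`). Both sides of `sec` say that `w (s * u ^ a) ≤ exp (t * L w) * w (x j) ^ ((k + 1) * a)`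
for all `j` and all prime divisors `w` of the chart `j` (`hartogs`, `reX_primeDiv`, `reX_cover`). -/
theorem exists_emb {N : ℕ} {x : Fin (N + 1) → Kˣ}
    (normal : ∀ i, IsFractionRing (chart x i) K ∧ IsIntegrallyClosed (chart x i))
    {L : Prm x →₀ ℤ} (hL : IsCartier L) : ∃ (κ : Type) (_ : Fintype κ), Nonempty (Emb L κ) := by
  obtain ⟨B, _, F, f, k, h0, h1, h2⟩ := exists_forms (fun i => (normal i).1) hL
  obtain ⟨b₀⟩ : Nonempty B := by
    by_contra hB
    rw [not_nonempty_iff] at hB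
    obtain ⟨r, -, hr⟩ := h1 0
    rw [Fintype.sum_empty] at hr
    exact zero_ne_one hr
  obtain ⟨u, hu⟩ : ∃ u, u = F b₀ * x 0 := ⟨_, rfl⟩
  have hn : ∀ a, IsFractionRing (chart (reX x F u) a) K ∧
      IsIntegrallyClosed (chart (reX x F u) a) := fun a => by
    have := (normal a.2).1
    have := (normal a.2).2
    exact ⟨(reX_loc h0 h1 u a).frac, (reX_loc h0 h1 u a).normal⟩
  have he : ∀ a (w : Prm x), PrimeDiv (chart (reX x F u) a) w.1 →
      w.1 (((f a.1)⁻¹ : Kˣ) : K) = exp (L w) := fun a w hw => by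
    obtain ⟨h3, h4⟩ := (reX_primeDiv h0 h1 u a w.1).1 hw
    rw [Units.val_inv_eq_inv_val, map_inv₀,
      (ord_eq_iff w.1 (f a.1).ne_zero _).1 (h2 a.1 a.2 w h3 h4), exp_neg, inv_inv]
  have key : ∀ (t a : ℕ) (s : K) (c : B × Fin (N + 1)) (w : Prm x),
      PrimeDiv (chart (reX x F u) c) w.1 →
      (w.1 (s / ((((f c.1)⁻¹ : Kˣ) : K) ^ (t : ℤ) * ((reX x F u c : Kˣ) : K) ^ a)) ≤ 1 ↔
        w.1 (s * (u : K) ^ a / (x c.2 : K) ^ ((k + 1) * a)) ≤ exp ((t • L) w)) := by
    intro t a s c w hw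
    have e : ((reX x F u c : Kˣ) : K) = (F c.1 : K) * x c.2 / u := by
      rw [reX, Units.val_div_eq_div_val, Units.val_mul]
    rw [e, Emb_id s _ _ _ _ (F c.1).ne_zero (x c.2).ne_zero
      (zpow_ne_zero _ (Units.ne_zero _)) u.ne_zero k a, map_div₀, map_mul, map_pow,
      ((reX_primeDiv h0 h1 u c w.1).1 hw).2, one_pow, mul_one, zpow_natCast, map_pow, he c w hw,
      ← exp_nsmul, div_le_one₀ exp_pos, Finsupp.smul_apply]
  refine ⟨B × Fin (N + 1), inferInstance, ⟨
    { x' := reX x F u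
      g' := fun a => (f a.1)⁻¹
      k₀ := (b₀, 0)
      j := Prod.snd
      k := k + 1
      u := u
      one := by rw [reX, hu, div_self']
      kpos := k.succ_pos
      loc := reX_loc h0 h1 u
      eqn := he
      cart := cart_of_eqn hn fun a b w ha hb => ?_
      sec := fun t a s => ⟨fun h i w hw => ?_, fun h c => ?_⟩ }⟩⟩
  · have hw : ∃ i, PrimeDiv (chart x i) w := ⟨a.2, (reX_loc h0 h1 u a).primeDiv ha⟩
    exact (he a ⟨w, hw⟩ ha).trans (he b ⟨w, hw⟩ hb).symm
  · obtain ⟨b, hb⟩ := reX_cover h0 h1 u (hw i (Finset.mem_singleton_self i))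
    exact (key t a s (b, i) w hb).1 (hb.2.1 _ (h (b, i)))
  · have := chart_noeth (reX x F u) c
    have := (hn c).1
    have := (hn c).2
    refine hartogs fun w hw => ?_
    have h3 := (reX_loc h0 h1 u c).primeDiv hw
    refine (key t a s c ⟨w, c.2, h3⟩ hw).2 (h c.2 ⟨w, c.2, h3⟩ fun i hi => ?_)
    rwa [Finset.mem_singleton.1 hi]

end Pool.Agent.Lib.MP_bc213e_ag.OW
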